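import Pool.Agent.H6.LV.Quad

/-! Simple oriented matroids without simplicial topes, in every rank `r ≥ 7`; all topes have at
least `r + k` walls as soon as `r ≥ 7 k`. -/

set_option autoImplicit false

namespace Pool.Agent.Results.MP_1c61d1_co.NoSimplicialTope

/-- An oriented matroid on the ground set `E`, given by its set of covectors: the zero vector is a
covector, negatives and compositions of covectors are covectors, and covector elimination holds. -/
structure OrientedMatroid (E : Type) where
  covectors : Set (E → SignType)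
  zero_mem : (0 : E → SignType) ∈ covectors
  neg_mem : ∀ X ∈ covectors, -X ∈ covectors
  comp_mem : ∀ X ∈ covectors, ∀ Y ∈ covectors, (fun e => if X e = 0 then Y e else X e) ∈ covectors
  elim : ∀ X ∈ covectors, ∀ Y ∈ covectors, ∀ e : E, X e ≠ 0 → Y e = -X e →
    ∃ Z ∈ covectors, Z e = 0 ∧
      ∀ f : E, ¬ (X f ≠ 0 ∧ Y f = -X f) → Z f = if X f = 0 then Y f else X f

namespace OrientedMatroid

variable {E F : Type}

/-- Simple: no loops, no two distinct elements parallel or antiparallel. -/
def IsSimple (M : OrientedMatroid E) : Prop :=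
  (∀ e, ∃ X ∈ M.covectors, X e ≠ 0) ∧
  ∀ e f, e ≠ f → (∃ X ∈ M.covectors, X e ≠ X f) ∧ (∃ X ∈ M.covectors, X e ≠ -X f)

/-- `T` is a tope: a maximal covector for the conformal order
(`T ≤ X` if `T e = 0` or `T e = X e` for every `e`). -/
def IsTope (M : OrientedMatroid E) (T : E → SignType) : Prop :=
  T ∈ M.covectors ∧ ∀ X ∈ M.covectors, (∀ e, T e = 0 ∨ T e = X e) → X = T

/-- The walls of `T`: the elements `e` such that reversing the sign of `T` at `e` gives a tope. -/
def walls (M : OrientedMatroid E) (T : E → SignType) : Set E :=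
  {e | ∃ T', M.IsTope T' ∧ T' e = -T e ∧ ∀ f, f ≠ e → T' f = T f}

/-- `I` is independent in the underlying matroid, whose flats are the zero sets of the covectors:
for every `e` in `I` some covector vanishes on the rest of `I` and not at `e`. -/
def Indep (M : OrientedMatroid E) (I : Finset E) : Prop :=
  ∀ e ∈ I, ∃ X ∈ M.covectors, X e ≠ 0 ∧ ∀ f ∈ I, f ≠ e → X f = 0

/-- The rank is `r`: the largest size of an independent set. -/
def HasRank (M : OrientedMatroid E) (r : ℕ) : Prop :=
  (∃ I : Finset E, M.Indep I ∧ I.card = r) ∧ ∀ I : Finset E, M.Indep I → I.card ≤ r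

theorem isTope_iff {M : OrientedMatroid E} (hM : M.IsSimple) {T : E → SignType} :
    M.IsTope T ↔ T ∈ M.covectors ∧ ∀ e, T e ≠ 0 := by
  constructor
  · rintro ⟨h1, h2⟩
    refine ⟨h1, fun e he => ?_⟩
    obtain ⟨X, hX, hXe⟩ := hM.1 e
    have h3 := h2 _ (M.comp_mem T h1 X hX) (by
      intro f
      by_cases hf : T f = 0
      · exact Or.inl hf
      · right; simp [hf])
    have h4 := congrFun h3 e
    simp only [he, if_true] at h4
    exact hXe h4
  · rintro ⟨h1, h2⟩
    refine ⟨h1, fun X hX h3 => ?_⟩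
    funext e
    rcases h3 e with h | h
    · exact absurd h (h2 e)
    · exact h.symm

theorem sign_neg_ne {a : SignType} (h : a ≠ 0) : -a ≠ 0 := by
  revert h; revert a; decide

/-! ### Direct sums -/

/-- direct sum -/
def sum (M : OrientedMatroid E) (N : OrientedMatroid F) : OrientedMatroid (E ⊕ F) where
  covectors := {X | (fun e => X (Sum.inl e)) ∈ M.covectors ∧ (fun f => X (Sum.inr f)) ∈ N.covectors}
  zero_mem := ⟨M.zero_mem, N.zero_mem⟩
  neg_mem := fun _ hX => ⟨M.neg_mem _ hX.1, N.neg_mem _ hX.2⟩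
  comp_mem := fun _ hX _ hY => ⟨M.comp_mem _ hX.1 _ hY.1, N.comp_mem _ hX.2 _ hY.2⟩
  elim := by
    intro X hX Y hY e he hYe
    rcases e with e | e
    · obtain ⟨Z, hZ, hZe, hZf⟩ := M.elim _ hX.1 _ hY.1 e he hYe
      refine ⟨Sum.elim Z (fun f => if X (Sum.inr f) = 0 then Y (Sum.inr f) else X (Sum.inr f)),
        ⟨hZ, N.comp_mem _ hX.2 _ hY.2⟩, hZe, ?_⟩
      intro f hf
      rcases f with f | f
      · exact hZf f hf
      · rfl
    · obtain ⟨Z, hZ, hZe, hZf⟩ := N.elim _ hX.2 _ hY.2 e he hYe
      refine ⟨Sum.elim (fun f => if X (Sum.inl f) = 0 then Y (Sum.inl f) else X (Sum.inl f)) Z,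
        ⟨M.comp_mem _ hX.1 _ hY.1, hZ⟩, hZe, ?_⟩
      intro f hf
      rcases f with f | f
      · rfl
      · exact hZf f hf

theorem mem_sum {M : OrientedMatroid E} {N : OrientedMatroid F} {X : E → SignType}
    {Y : F → SignType} (hX : X ∈ M.covectors) (hY : Y ∈ N.covectors) :
    Sum.elim X Y ∈ (M.sum N).covectors := ⟨hX, hY⟩

theorem isSimple_sum {M : OrientedMatroid E} {N : OrientedMatroid F} (hM : M.IsSimple)
    (hN : N.IsSimple) : (M.sum N).IsSimple := by
  have z : ∀ {a : SignType}, a ≠ 0 → a ≠ 0 ∧ a ≠ -0 ∧ 0 ≠ a ∧ 0 ≠ -a := by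
    intro a
    revert a
    decide
  refine ⟨?_, ?_⟩
  · rintro (e | e)
    · obtain ⟨X, hX, hXe⟩ := hM.1 e
      exact ⟨_, mem_sum hX N.zero_mem, hXe⟩
    · obtain ⟨X, hX, hXe⟩ := hN.1 e
      exact ⟨_, mem_sum M.zero_mem hX, hXe⟩
  · rintro (e | e) (f | f) hef
    · obtain ⟨⟨X, hX, h1⟩, ⟨Y, hY, h2⟩⟩ := hM.2 e f (fun h => hef (by rw [h]))
      exact ⟨⟨_, mem_sum hX N.zero_mem, h1⟩, ⟨_, mem_sum hY N.zero_mem, h2⟩⟩
    · obtain ⟨X, hX, hXe⟩ := hM.1 e
      exact ⟨⟨_, mem_sum hX N.zero_mem, (z hXe).1⟩, ⟨_, mem_sum hX N.zero_mem, (z hXe).2.1⟩⟩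
    · obtain ⟨X, hX, hXe⟩ := hN.1 e
      exact ⟨⟨_, mem_sum M.zero_mem hX, (z hXe).1⟩, ⟨_, mem_sum M.zero_mem hX, (z hXe).2.1⟩⟩
    · obtain ⟨⟨X, hX, h1⟩, ⟨Y, hY, h2⟩⟩ := hN.2 e f (fun h => hef (by rw [h]))
      exact ⟨⟨_, mem_sum M.zero_mem hX, h1⟩, ⟨_, mem_sum M.zero_mem hY, h2⟩⟩

theorem hasRank_sum {M : OrientedMatroid E} {N : OrientedMatroid F} {r s : ℕ}
    (hM : M.HasRank r) (hN : N.HasRank s) : (M.sum N).HasRank (r + s) := by
  classical
  obtain ⟨⟨I, hI, hIr⟩, hMI⟩ := hM
  obtain ⟨⟨J, hJ, hJs⟩, hNJ⟩ := hN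
  refine ⟨⟨I.disjSum J, ?_, by rw [Finset.card_disjSum, hIr, hJs]⟩, ?_⟩
  · rintro (e | e) he
    · obtain ⟨X, hX, hXe, hXf⟩ := hI e (Finset.inl_mem_disjSum.mp he)
      refine ⟨_, mem_sum hX N.zero_mem, hXe, ?_⟩
      rintro (f | f) hf hfe
      · exact hXf f (Finset.inl_mem_disjSum.mp hf) (fun h => hfe (by rw [h]))
      · rfl
    · obtain ⟨X, hX, hXe, hXf⟩ := hJ e (Finset.inr_mem_disjSum.mp he)
      refine ⟨_, mem_sum M.zero_mem hX, hXe, ?_⟩
      rintro (f | f) hf hfe
      · rfl
      · exact hXf f (Finset.inr_mem_disjSum.mp hf) (fun h => hfe (by rw [h]))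
  · intro K hK
    have h1 := hMI K.toLeft (by
      intro e he
      obtain ⟨X, hX, hXe, hXf⟩ := hK (Sum.inl e) (Finset.mem_toLeft.mp he)
      refine ⟨_, hX.1, hXe, ?_⟩
      intro f hf hfe
      exact hXf (Sum.inl f) (Finset.mem_toLeft.mp hf) (fun h => hfe (Sum.inl_injective h)))
    have h2 := hNJ K.toRight (by
      intro e he
      obtain ⟨X, hX, hXe, hXf⟩ := hK (Sum.inr e) (Finset.mem_toRight.mp he)
      refine ⟨_, hX.2, hXe, ?_⟩
      intro f hf hfe
      exact hXf (Sum.inr f) (Finset.mem_toRight.mp hf) (fun h => hfe (Sum.inr_injective h)))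
    have h3 := Finset.card_toLeft_add_card_toRight (u := K)
    omega

/-- `M` has `n` elements, rank `r`, is simple and all its topes have at least `w` walls -/
def Good (n r w : ℕ) : Prop :=
  ∃ (E : Type) (_ : Fintype E) (M : OrientedMatroid E),
      Fintype.card E = n ∧ M.IsSimple ∧ M.HasRank r ∧
      ∀ T : E → SignType, M.IsTope T → w ≤ (M.walls T).ncard

theorem good_sum {n r w n' r' w' : ℕ} (h : Good n r w) (h' : Good n' r' w') :
    Good (n + n') (r + r') (w + w') := by
  obtain ⟨E, hE, M, hn, hM, hr, hw⟩ := h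
  obtain ⟨F, hF, N, hn', hN, hr', hw'⟩ := h'
  refine ⟨E ⊕ F, inferInstance, M.sum N, by rw [Fintype.card_sum, hn, hn'],
    isSimple_sum hM hN, hasRank_sum hr hr', ?_⟩
  intro T hT
  have hS := isSimple_sum hM hN
  rw [isTope_iff hS] at hT
  obtain ⟨⟨h1, h2⟩, h3⟩ := hT
  have t1 : M.IsTope (fun e => T (Sum.inl e)) := (isTope_iff hM).mpr ⟨h1, fun e => h3 _⟩
  have t2 : N.IsTope (fun e => T (Sum.inr e)) := (isTope_iff hN).mpr ⟨h2, fun e => h3 _⟩
  have e1 := hw _ t1
  have e2 := hw' _ t2
  have hsub : Sum.inl '' M.walls (fun e => T (Sum.inl e)) ∪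
      Sum.inr '' N.walls (fun e => T (Sum.inr e)) ⊆ (M.sum N).walls T := by
    rintro x (⟨e, ⟨T', hT', ha, hb⟩, rfl⟩ | ⟨e, ⟨T', hT', ha, hb⟩, rfl⟩)
    · rw [isTope_iff hM] at hT'
      refine ⟨Sum.elim T' (fun f => T (Sum.inr f)), (isTope_iff hS).mpr
        ⟨⟨hT'.1, h2⟩, ?_⟩, ha, ?_⟩
      · rintro (f | f)
        · exact hT'.2 f
        · exact h3 _
      · rintro (f | f) hf
        · exact hb f (fun h => hf (by rw [h]))
        · rfl
    · rw [isTope_iff hN] at hT'
      refine ⟨Sum.elim (fun f => T (Sum.inl f)) T', (isTope_iff hS).mpr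
        ⟨⟨h1, hT'.1⟩, ?_⟩, ha, ?_⟩
      · rintro (f | f)
        · exact h3 _
        · exact hT'.2 f
      · rintro (f | f) hf
        · rfl
        · exact hb f (fun h => hf (by rw [h]))
  have hdis : Disjoint (Sum.inl '' M.walls (fun e => T (Sum.inl e)))
      (Sum.inr '' N.walls (fun e => T (Sum.inr e))) := by
    rw [Set.disjoint_left]
    rintro x ⟨e, _, rfl⟩ ⟨f, _, h⟩
    cases h
  have h4 := Set.ncard_le_ncard hsub (Set.toFinite _)
  rw [Set.ncard_union_eq hdis (Set.toFinite _) (Set.toFinite _),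
    Set.ncard_image_of_injective _ Sum.inl_injective,
    Set.ncard_image_of_injective _ Sum.inr_injective] at h4
  omega

/-! ### Small cases -/

/-- all sign vectors -/
def free (E : Type) : OrientedMatroid E where
  covectors := Set.univ
  zero_mem := trivial
  neg_mem := fun _ _ => trivial
  comp_mem := fun _ _ _ _ => trivial
  elim := by
    classical
    intro X _ Y _ e _ _
    refine ⟨fun f => if f = e then 0 else if X f = 0 then Y f else X f, trivial, by simp, ?_⟩
    intro f hf
    have : f ≠ e := by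
      rintro rfl
      exact hf ⟨by assumption, by assumption⟩
    simp [this]

theorem good_zero : Good 0 0 0 := by
  refine ⟨Fin 0, inferInstance, free (Fin 0), by simp, ⟨fun e => e.elim0, fun e => e.elim0⟩,
    ⟨⟨∅, fun e => e.elim0, rfl⟩, ?_⟩, fun _ _ => Nat.zero_le _⟩
  intro I _
  have : I = ∅ := Finset.eq_empty_of_forall_notMem (fun e => e.elim0)
  rw [this]
  rfl

theorem good_one : Good 1 1 1 := by
  have hS : (free (Fin 1)).IsSimple := by
    refine ⟨fun e => ⟨fun _ => 1, trivial, by simp⟩, ?_⟩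
    intro e f hef
    exact absurd (Subsingleton.elim e f) hef
  refine ⟨Fin 1, inferInstance, free (Fin 1), by simp, hS, ⟨⟨{0}, ?_, rfl⟩, ?_⟩, ?_⟩
  · intro e _
    refine ⟨fun _ => 1, trivial, by simp, ?_⟩
    intro f _ hfe
    exact absurd (Subsingleton.elim f e) hfe
  · intro I _
    exact (Finset.card_le_univ I).trans (by simp)
  · intro T hT
    rw [isTope_iff hS] at hT
    have : (0 : Fin 1) ∈ (free (Fin 1)).walls T := by
      refine ⟨fun e => -T e, (isTope_iff hS).mpr ⟨trivial, fun e => sign_neg_ne (hT.2 e)⟩, rfl, ?_⟩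
      intro f hf
      exact absurd (Subsingleton.elim f 0) hf
    exact (Set.ncard_pos (Set.toFinite _)).mpr ⟨0, this⟩

/-! ### The example of rank 7 on 25 elements -/

open Pool.Agent.H6.LV in
/-- the parallel connection of two copies of a uniform oriented matroid of rank 4 on 13 elements -/
def base : OrientedMatroid (Fin 25) where
  covectors := L25
  zero_mem := isOM_L25.zero
  neg_mem := isOM_L25.neg
  comp_mem := isOM_L25.cmp
  elim := isOM_L25.elim

open Pool.Agent.H6.LV in
theorem isSimple_base : base.IsSimple := by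
  refine ⟨?_, ?_⟩
  · intro e
    have hne : ∃ f : Fin 25, e ≠ f := by
      revert e
      decide
    obtain ⟨f, hf⟩ := hne
    obtain ⟨X, hX, h1, _⟩ := exists_tope25 e f hf true true
    refine ⟨X, hX, ?_⟩
    rw [h1]
    decide
  · intro e f hef
    refine ⟨?_, ?_⟩
    · obtain ⟨X, hX, h1, h2⟩ := exists_tope25 e f hef true false
      refine ⟨X, hX, ?_⟩
      rw [h1, h2]
      decide
    · obtain ⟨X, hX, h1, h2⟩ := exists_tope25 e f hef true true
      refine ⟨X, hX, ?_⟩
      rw [h1, h2]
      decide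

open Pool.Agent.H6.LV in
theorem hasRank_base : base.HasRank 7 := by
  refine ⟨⟨I4.image lft ∪ I4.image rgt, ?_, by decide⟩, ?_⟩
  · intro e he
    let s : Fin 25 → SignType := fun f => if f = e then 1 else 0
    obtain ⟨X₁, hX₁, h1⟩ := ext13 (s ∘ lft)
    obtain ⟨X₂, hX₂, h2⟩ := ext13 (s ∘ rgt)
    have h0 : (0 : Fin 13) ∈ I4 := by decide
    obtain ⟨X, hl, hr⟩ := glue25.exists_glue X₁ X₂ (by
      rw [h1 0 h0, h2 0 h0]
      show s (lft 0) = s (rgt 0)
      rw [glue25.ho])
    have hXs : ∀ f ∈ I4.image lft ∪ I4.image rgt, X f = s f := by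
      intro f hf
      rcases Finset.mem_union.mp hf with hf | hf
      · obtain ⟨i, hi, rfl⟩ := Finset.mem_image.mp hf
        have := congrFun hl i
        simp only [Function.comp_apply] at this
        rw [this, h1 i hi]
        rfl
      · obtain ⟨i, hi, rfl⟩ := Finset.mem_image.mp hf
        have := congrFun hr i
        simp only [Function.comp_apply] at this
        rw [this, h2 i hi]
        rfl
    refine ⟨X, ⟨by rw [hl]; exact hX₁, by rw [hr]; exact hX₂⟩, ?_, ?_⟩
    · rw [hXs e he]
      simp [s]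
    · intro f hf hfe
      rw [hXs f hf]
      simp [s, hfe]
  · intro I hI
    -- five elements of one copy are dependent
    have key : ∀ (l r : Fin 13 → Fin 25), Glue l r 0 → PC L13 l r = L25 →
        ∀ A : Finset (Fin 13), A.image l ⊆ I → A.card ≤ 4 := by
      intro l r hG hPC A hA
      by_contra hc
      obtain ⟨B, hBA, hB⟩ := Finset.exists_subset_card_eq (show 5 ≤ A.card by omega)
      obtain ⟨e, he⟩ : B.Nonempty := by rw [← Finset.card_pos]; omega
      obtain ⟨X, hX, hXe, hXf⟩ := hI (l e) (hA (Finset.mem_image_of_mem l (hBA he)))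
      have hX' : X ∈ PC L13 l r := by rw [hPC]; exact hX
      have h4 : (B.erase e).card = 4 := by
        rw [Finset.card_erase_of_mem he, hB]
      have hz : X ∘ l = 0 := by
        refine good_L13.four _ hX'.1 (fun i => (B.erase e).orderEmbOfFin h4 i)
          (fun i j hij => ((B.erase e).orderEmbOfFin h4).injective hij) ?_
        intro i
        have hi := Finset.orderEmbOfFin_mem (B.erase e) h4 i
        apply hXf
        · exact hA (Finset.mem_image_of_mem l (hBA (Finset.mem_of_mem_erase hi)))
        · intro h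
          exact Finset.ne_of_mem_erase hi (hG.hl h)
      exact hXe (congrFun hz e)
    let A : Finset (Fin 13) := Finset.univ.filter fun i => lft i ∈ I
    let B : Finset (Fin 13) := Finset.univ.filter fun i => rgt i ∈ I
    have hA : A.card ≤ 4 := key lft rgt glue25 rfl A (by
      intro x hx
      obtain ⟨i, hi, rfl⟩ := Finset.mem_image.mp hx
      exact (Finset.mem_filter.mp hi).2)
    have hB : B.card ≤ 4 := key rgt lft glue25.symm (PC_swap _ _ _) B (by
      intro x hx
      obtain ⟨i, hi, rfl⟩ := Finset.mem_image.mp hx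
      exact (Finset.mem_filter.mp hi).2)
    have hU : I = A.image lft ∪ B.image rgt := by
      ext x
      rw [Finset.mem_union]
      constructor
      · intro hx
        rcases glue25.hs x with ⟨i, rfl⟩ | ⟨i, rfl⟩
        · exact Or.inl (Finset.mem_image_of_mem _ (Finset.mem_filter.mpr ⟨Finset.mem_univ _, hx⟩))
        · exact Or.inr (Finset.mem_image_of_mem _ (Finset.mem_filter.mpr ⟨Finset.mem_univ _, hx⟩))
      · rintro (hx | hx)
        · obtain ⟨i, hi, rfl⟩ := Finset.mem_image.mp hx
          exact (Finset.mem_filter.mp hi).2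
        · obtain ⟨i, hi, rfl⟩ := Finset.mem_image.mp hx
          exact (Finset.mem_filter.mp hi).2
    have hcl : (A.image lft).card = A.card := Finset.card_image_of_injective _ glue25.hl
    have hcr : (B.image rgt).card = B.card := Finset.card_image_of_injective _ glue25.hr
    by_cases h0 : lft 0 ∈ I
    · -- the common element is counted twice
      have hA0 : lft 0 ∈ A.image lft :=
        Finset.mem_image_of_mem _ (Finset.mem_filter.mpr ⟨Finset.mem_univ _, h0⟩)
      have hB0 : lft 0 ∈ B.image rgt := by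
        rw [glue25.ho]
        refine Finset.mem_image_of_mem _ (Finset.mem_filter.mpr ⟨Finset.mem_univ _, ?_⟩)
        rw [← glue25.ho]; exact h0
      have hI' : 1 ≤ (A.image lft ∩ B.image rgt).card :=
        Finset.card_pos.mpr ⟨_, Finset.mem_inter.mpr ⟨hA0, hB0⟩⟩
      have := Finset.card_union_add_card_inter (A.image lft) (B.image rgt)
      rw [← hU] at this
      omega
    · by_contra hc
      have h1 : I.card ≤ A.card + B.card := by
        rw [hU]
        exact (Finset.card_union_le _ _).trans (by rw [hcl, hcr])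
      have hA4 : A.card = 4 := by omega
      have hB4 : B.card = 4 := by omega
      obtain ⟨e, he⟩ : B.Nonempty := by rw [← Finset.card_pos]; omega
      obtain ⟨X, hX, hXe, hXf⟩ := hI (rgt e) (Finset.mem_filter.mp he).2
      have hA0 : ∀ i ∈ A, i ≠ 0 := by
        rintro i hi rfl
        exact h0 (Finset.mem_filter.mp hi).2
      have hB0 : ∀ i ∈ B, i ≠ 0 := by
        rintro i hi rfl
        apply h0
        rw [glue25.ho]
        exact (Finset.mem_filter.mp hi).2
      have hz : X ∘ lft = 0 := by
        refine good_L13.four _ hX.1 (fun i => A.orderEmbOfFin hA4 i)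
          (fun i j hij => (A.orderEmbOfFin hA4).injective hij) ?_
        intro i
        have hi := Finset.orderEmbOfFin_mem A hA4 i
        apply hXf
        · exact (Finset.mem_filter.mp hi).2
        · intro h
          exact hA0 _ hi (glue25.hlr _ _ h).1
      have hz0 : (X ∘ rgt) 0 = 0 := by
        have := congrFun hz 0
        simp only [Function.comp_apply, Pi.zero_apply] at this ⊢
        rw [← glue25.ho]; exact this
      have hC4 : (insert 0 (B.erase e)).card = 4 := by
        rw [Finset.card_insert_of_notMem, Finset.card_erase_of_mem he, hB4]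
        intro h
        exact hB0 0 (Finset.mem_of_mem_erase h) rfl
      have hz' : X ∘ rgt = 0 := by
        refine good_L13.four _ hX.2 (fun i => (insert 0 (B.erase e)).orderEmbOfFin hC4 i)
          (fun i j hij => ((insert 0 (B.erase e)).orderEmbOfFin hC4).injective hij) ?_
        intro i
        have hi := Finset.orderEmbOfFin_mem (insert 0 (B.erase e)) hC4 i
        rcases Finset.mem_insert.mp hi with h | h
        · rw [h]; exact hz0
        · apply hXf
          · exact (Finset.mem_filter.mp (Finset.mem_of_mem_erase h)).2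
          · intro h'
            exact Finset.ne_of_mem_erase h (glue25.hr h')
      exact hXe (congrFun hz' e)

open Pool.Agent.H6.LV in
theorem walls_base {T : Fin 25 → SignType} (hT : base.IsTope T) :
    8 ≤ (base.walls T).ncard := by
  rw [isTope_iff isSimple_base] at hT
  obtain ⟨hTL, hT0⟩ := hT
  -- walls from one copy
  have key : ∀ (l r : Fin 13 → Fin 25), Glue l r 0 → PC L13 l r = L25 →
      ∀ s : Fin 13, s ≠ 0 → Function.update (T ∘ l) s 0 ∈ L13 → l s ∈ base.walls T := by
    intro l r hG hPC s hs0 hs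
    have hT' : T ∈ PC L13 l r := by rw [hPC]; exact hTL
    have hflip := flip_of_update isOM_L13 hT'.1 (fun e => hT0 _) hs
    refine ⟨Function.update T (l s) (-T (l s)), (isTope_iff isSimple_base).mpr ⟨?_, ?_⟩, by simp,
      fun f hf => Function.update_of_ne hf _ _⟩
    · show Function.update T (l s) (-T (l s)) ∈ L25
      rw [← hPC]
      refine ⟨?_, ?_⟩
      · rw [update_comp_left hG.hl]
        exact hflip
      · rw [update_comp_ne]
        · exact hT'.2
        · intro i hi
          exact hs0 (hG.hlr _ _ hi.symm).1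
    · intro e
      by_cases he : e = l s
      · subst he
        rw [Function.update_self]
        exact sign_neg_ne (hT0 _)
      · rw [Function.update_of_ne he]
        exact hT0 e
  obtain ⟨s, hs, hs'⟩ := good_L13.facets (T ∘ lft) hTL.1 (fun e => hT0 _)
  obtain ⟨t, ht, ht'⟩ := good_L13.facets (T ∘ rgt) hTL.2 (fun e => hT0 _)
  have hsub : Set.range (Sum.elim (fun i => lft (s i)) (fun i => rgt (t i))) ⊆ base.walls T := by
    rintro x ⟨i | i, rfl⟩
    · exact key lft rgt glue25 rfl _ (hs' i).1 (hs' i).2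
    · exact key rgt lft glue25.symm (PC_swap _ _ _) _ (ht' i).1 (ht' i).2
  have hinj : Function.Injective (Sum.elim (fun i => lft (s i)) (fun i => rgt (t i))) := by
    rintro (i | i) (j | j) hij
    · rw [hs (glue25.hl hij)]
    · exact absurd (glue25.hlr _ _ hij).1 (hs' i).1
    · exact absurd (glue25.hlr _ _ hij.symm).1 (hs' j).1
    · rw [ht (glue25.hr hij)]
  have h1 := Set.ncard_le_ncard hsub (Set.toFinite _)
  rw [← Set.image_univ, Set.ncard_image_of_injective _ hinj, Set.ncard_univ,
    Nat.card_eq_fintype_card] at h1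
  simpa using h1

theorem good_base : Good 25 7 8 :=
  ⟨Fin 25, inferInstance, base, by simp, isSimple_base, hasRank_base, fun _ hT => walls_base hT⟩

theorem good_mul (k : ℕ) : Good (25 * k) (7 * k) (8 * k) := by
  induction k with
  | zero => exact good_zero
  | succ k ih => exact good_sum ih good_base

theorem good_free (m : ℕ) : Good m m m := by
  induction m with
  | zero => exact good_zero
  | succ m ih => exact good_sum ih good_one

end OrientedMatroid

/-- For all `k` and `r ≥ 7 k` there is a simple oriented matroid of rank `r` on `r + 18 k` elements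
all of whose topes have at least `r + k` walls. For `k = 1` no tope is simplicial. -/
theorem result (k r : ℕ) (hr : 7 * k ≤ r) :
    ∃ (E : Type) (_ : Fintype E) (M : OrientedMatroid E),
      Fintype.card E = r + 18 * k ∧ M.IsSimple ∧ M.HasRank r ∧
      ∀ T : E → SignType, M.IsTope T → r + k ≤ (M.walls T).ncard := by
  have h := OrientedMatroid.good_sum (OrientedMatroid.good_mul k)
    (OrientedMatroid.good_free (r - 7 * k))
  have h1 : 25 * k + (r - 7 * k) = r + 18 * k := by omega
  have h2 : 7 * k + (r - 7 * k) = r := by omega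
  have h3 : 8 * k + (r - 7 * k) = r + k := by omega
  rw [h1, h2, h3] at h
  exact h

end Pool.Agent.Results.MP_1c61d1_co.NoSimplicialTope
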